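import Pool.Agent.K4H40.NS.Fin

set_option autoImplicit false

namespace Pool.Agent.K4H40.NS

open MvPolynomial Module

theorem finite_of_le {n : ℕ} {K : Type} [Field K] {d : ℕ} {M : Submodule K (R n K)}
    (h : M ≤ hs n K d) : Module.Finite K M := by
  have := hs_finite n K d
  exact Submodule.finiteDimensional_of_le h

theorem mul_mem_hs {n : ℕ} {K : Type} [Field K] {d e : ℕ} {f g : R n K} (hf : f ∈ hs n K d)
    (hg : g ∈ hs n K e) : f * g ∈ hs n K (d + e) := IsHomogeneous.mul hf hg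

theorem assembly (srh : StSRH) (nb : StNB) (m1 : StM1) (dec : StDEC) (reg : StREG) (lin : StLIN)
    (dim : StDIM) (phi : StPHI) (rank : StRANK) (d3 : StD3) (d4 : StD4)
    {n k : ℕ} (hk : 1 ≤ k) (hn : 2 * k + 3 ≤ n) (Δ : Cplx n) (hΔ : Neighborly k Δ)
    (K : Type) [Field K] (s : Sys n k K (SR K Δ)) :
    mcount Δ (k + 1) ≠ (n - k - 3).choose k - 1 := by
  have hhom := srh K Δ
  have hI : Id (SR K Δ) k = ⊥ := nb K Δ k (by omega) hΔ
  have hphi := phi s
  have hdec1 : s.Jd (k + 1) = Id (SR K Δ) (k + 1) ⊔ s.Th k := dec s hhom k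
  have hdec2 : s.Jd (k + 2) = Id (SR K Δ) (k + 2) ⊔ s.Th (k + 1) := dec s hhom (k + 1)
  have hdec0 : s.Jd k = s.Th (k - 1) := by
    obtain ⟨j, rfl⟩ : ∃ j, k = j + 1 := ⟨k - 1, by omega⟩
    have h := dec s hhom j
    rw [hI, bot_sup_eq] at h
    simpa using h
  obtain ⟨hle, hrank⟩ := rank s hphi hdec1
  have h3 := d3 s hphi hdec1
  have h4 := d4 s hk hdec0
  have h1 := m1 K Δ (k + 1)
  have hreg := reg s hhom (k + 1)
  have hlin := lin s hhom hn hk hI
  -- dimension of V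
  have hV : s.V = Submodule.span K {p | ∃ i : Fin (2 * k + 1 + 1), ∃ f ∈ hs n K (k - 1),
      p = (Fin.cons s.ω s.θ : Fin (2 * k + 1 + 1) → R n K) i * f} := by
    apply le_antisymm
    · unfold Sys.V
      refine sup_le ?_ ?_
      · rintro _ ⟨f, hf, rfl⟩
        exact Submodule.subset_span ⟨0, f, hf, rfl⟩
      · unfold Sys.Th
        rw [Submodule.span_le]
        rintro _ ⟨i, f, hf, rfl⟩
        exact Submodule.subset_span ⟨i.succ, f, hf, rfl⟩
    · rw [Submodule.span_le]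
      rintro _ ⟨i, f, hf, rfl⟩
      refine Fin.cases ?_ (fun j => ?_) i
      · exact Submodule.mem_sup_left ⟨f, hf, rfl⟩
      · exact Submodule.mem_sup_right (Submodule.subset_span ⟨j, f, hf, rfl⟩)
  have h5 := dim (Fin.cons s.ω s.θ : Fin (2 * k + 1 + 1) → R n K)
    (fun i => Fin.cases s.ω_lin (fun j => s.θ_lin j) i) hlin (by omega) (k - 1)
  rw [← hV] at h5
  have e1 : k - 1 + 1 = k := by omega
  have e2 : n - (2 * k + 1 + 1) + (k - 1) = n - k - 3 := by omega
  rw [e1, e2] at h5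
  -- the count
  have hId : Id (SR K Δ) (k + 2) ≤ hs n K (k + 2) := inf_le_right
  have hRI : RI (SR K Δ) (k + 1) ≤ Id (SR K Δ) (k + 2) := by
    unfold RI
    rw [Submodule.span_le]
    rintro _ ⟨x, hx, f, hf, rfl⟩
    refine ⟨?_, ?_⟩
    · exact Ideal.mul_mem_left _ _ hf.1
    · have := mul_mem_hs hx hf.2
      rwa [show 1 + (k + 1) = k + 2 by ring] at this
  have hTh : s.Th (k + 1) ≤ hs n K (k + 2) := by
    unfold Sys.Th
    rw [Submodule.span_le]
    rintro _ ⟨i, f, hf, rfl⟩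
    have := mul_mem_hs (s.θ_lin i) hf
    rwa [show 1 + (k + 1) = k + 2 by ring] at this
  have f1 := finite_of_le hId
  have f2 := finite_of_le (hRI.trans hId)
  have f3 := finite_of_le hTh
  have f4 : Module.Finite K s.KP := finite_of_le (d := k + 1) inf_le_right
  have hinf : Id (SR K Δ) (k + 2) ⊓ s.Th (k + 1) = RI (SR K Δ) (k + 1) ⊓ s.Th (k + 1) := by
    apply le_antisymm
    · exact le_inf hreg inf_le_right
    · exact inf_le_inf_right _ hRI
  have g1 := Submodule.finrank_sup_add_finrank_inf_eq (Id (SR K Δ) (k + 2)) (s.Th (k + 1))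
  have g2 := Submodule.finrank_sup_add_finrank_inf_eq (RI (SR K Δ) (k + 1)) (s.Th (k + 1))
  rw [← hdec2, hinf] at g1
  have hP : s.P = RI (SR K Δ) (k + 1) ⊔ s.Th (k + 1) := rfl
  rw [← hP] at g2
  have hmono : finrank K (s.Jd (k + 1)) ≤ finrank K s.KP := Submodule.finrank_mono hle
  have hpos : 0 < (n - k - 3).choose k := Nat.choose_pos (by omega)
  have h1' : finrank K (Id (SR K Δ) (k + 2)) =
      finrank K (RI (SR K Δ) (k + 1)) + mcount Δ (k + 1) := h1
  omega

end Pool.Agent.K4H40.NS
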