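import Pool.Agent.K4H40.NS.Spec

set_option autoImplicit false

namespace Pool.Agent.K4H40.NS

open MvPolynomial Module

/-- the forms of degree `d` are a finite-dimensional space -/
theorem hs_finite (n : ℕ) (K : Type) [Field K] (d : ℕ) : Module.Finite K (hs n K d) := by
  have hfin : ({e : Fin n →₀ ℕ | e.degree = d}).Finite := by
    have h : Set.Finite {e : Fin n →₀ ℕ | ∀ i, e i ≤ d} := by
      have : {e : Fin n →₀ ℕ | ∀ i, e i ≤ d} ⊆ Set.Iic (Finsupp.equivFunOnFinite.symm fun _ => d) := by
        intro e he i
        exact he i
      exact (Set.finite_Iic _).subset this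
    refine h.subset ?_
    intro e he i
    have h1 : e.degree = d := he
    rw [← h1]
    exact Finsupp.le_degree i e
  have h2 : hs n K d ≤ Submodule.span K
      ((fun e => monomial e (1 : K)) '' {e : Fin n →₀ ℕ | e.degree = d}) := by
    intro f hf
    rw [← support_sum_monomial_coeff f]
    refine Submodule.sum_mem _ fun e he => ?_
    have h3 : monomial e (coeff e f) = (coeff e f) • monomial e (1 : K) := by
      rw [smul_monomial, smul_eq_mul, mul_one]
    rw [h3]
    refine Submodule.smul_mem _ _ (Submodule.subset_span ⟨e, ?_, rfl⟩)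
    have h4 : f.IsHomogeneous d := hf
    have h5 := h4 (mem_support_iff.mp he)
    show e.degree = d
    rw [← h5]; simp [Finsupp.weight_apply, Finsupp.degree_eq_sum, Finsupp.sum_fintype]
  haveI := FiniteDimensional.span_of_finite K (hfin.image (fun e => monomial e (1 : K)))
  exact Submodule.finiteDimensional_of_le h2

end Pool.Agent.K4H40.NS
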