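import Pool.Agent.K4H40.NS.Spec

set_option autoImplicit false

namespace Pool.Agent.K4H40.NS

noncomputable section

/-- the geometric realisation of a complex with vertex set `Fin n` -/
def realization {n : ℕ} (Δ : Cplx n) : Set (Fin n → ℝ) :=
  {x | (∀ i, 0 ≤ x i) ∧ ∑ i, x i = 1 ∧ Finset.univ.filter (fun i => x i ≠ 0) ∈ Δ.faces}

/-- a simplicial `d`-sphere: the geometric realisation is homeomorphic to the `d`-sphere -/
def IsSphere {n : ℕ} (d : ℕ) (Δ : Cplx n) : Prop :=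
  Nonempty (realization Δ ≃ₜ Metric.sphere (0 : EuclideanSpace ℝ (Fin (d + 1))) 1)

/-- the statement of the published theorem (Adiprasito, Papadakis-Petrotou, Karu-Xiao): every simplicial
`2k`-sphere has, over some field, a Lefschetz system -/
def SpheresHaveSystems : Prop :=
  ∀ (n k : ℕ) (Δ : Cplx n), 1 ≤ k → IsSphere (2 * k) Δ →
    ∃ (K : Type) (_ : Field K), Nonempty (Sys n k K (SR K Δ))

/-- the assertion of Q1 -/
def AllValuesOccur : Prop :=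
  ∀ k : ℕ, 2 ≤ k → ∃ N : ℕ, ∀ n : ℕ, N ≤ n → ∀ m : ℕ, m ≤ (n - k - 3).choose k →
    ∃ Δ : Cplx n, IsSphere (2 * k) Δ ∧ Neighborly k Δ ∧ mcount Δ (k + 1) = m

/-- from the main theorem to Q1 -/
theorem q1_of_main
    (main : ∀ (n k : ℕ), 1 ≤ k → 2 * k + 3 ≤ n → ∀ Δ : Cplx n, Neighborly k Δ →
      ∀ (K : Type) [Field K], Sys n k K (SR K Δ) → mcount Δ (k + 1) ≠ (n - k - 3).choose k - 1)
    (h : SpheresHaveSystems) :
    (∀ (n k : ℕ), 1 ≤ k → 2 * k + 3 ≤ n → ∀ Δ : Cplx n, IsSphere (2 * k) Δ → Neighborly k Δ →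
      mcount Δ (k + 1) ≠ (n - k - 3).choose k - 1) ∧ ¬ AllValuesOccur := by
  have h1 : ∀ (n k : ℕ), 1 ≤ k → 2 * k + 3 ≤ n → ∀ Δ : Cplx n, IsSphere (2 * k) Δ →
      Neighborly k Δ → mcount Δ (k + 1) ≠ (n - k - 3).choose k - 1 := by
    intro n k hk hn Δ hS hN
    obtain ⟨K, hK, ⟨s⟩⟩ := h n k Δ hk hS
    exact main n k hk hn Δ hN K s
  refine ⟨h1, fun hall => ?_⟩
  obtain ⟨N, hN⟩ := hall 2 le_rfl
  obtain ⟨Δ, hS, hNb, hm⟩ := hN (max N 7) (le_max_left _ _) ((max N 7 - 2 - 3).choose 2 - 1)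
    (Nat.sub_le _ _)
  exact h1 (max N 7) 2 (by norm_num) (by have := le_max_right N 7; omega) Δ hS hNb hm

end

end Pool.Agent.K4H40.NS
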