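import Pool.Agent.K4H40.NS.Asm
import Pool.Agent.K4H40.NS.Sphere
import Pool.Agent.K4H29.NS.SRH
import Pool.Agent.K4H36.NSM1
import Pool.Agent.K4H42.NS.Dec
import Pool.Agent.K4H81.NSREG
import Pool.Agent.K4H38.NSLin
import Pool.Agent.K4H8.NS.Dim
import Pool.Agent.K4H58.NS.PHI
import Pool.Agent.K4H61.NSKey
import Pool.Agent.K4H66.NSRank
import Pool.Agent.K4H4.NSD3
import Pool.Agent.K4H50.NS.D4

set_option autoImplicit false

namespace Pool.Agent.K4H40.NS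

theorem main (n k : ℕ) (hk : 1 ≤ k) (hn : 2 * k + 3 ≤ n) (Δ : Cplx n) (hΔ : Neighborly k Δ)
    (K : Type) [Field K] (s : Sys n k K (SR K Δ)) :
    mcount Δ (k + 1) ≠ (n - k - 3).choose k - 1 :=
  assembly srh nb m1 dec reg (lin dec dim) dim phi (rank Pool.Agent.K4H61.NSKey.key) d3 d4
    hk hn Δ hΔ K s

end Pool.Agent.K4H40.NS
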