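import Mathlib

/-!
Missing faces of neighborly `2k`-spheres: definitions and the statements of the pieces.
-/

set_option autoImplicit false

namespace Pool.Agent.K4H40.NS

open MvPolynomial Module

noncomputable section

/-- a simplicial complex whose vertex set is `Fin n` -/
structure Cplx (n : ℕ) where
  faces : Finset (Finset (Fin n))
  down : ∀ F ∈ faces, ∀ G, G ⊆ F → G ∈ faces
  vertex : ∀ v : Fin n, {v} ∈ faces

/-- every set of `k` vertices is a face -/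
def Neighborly {n : ℕ} (k : ℕ) (Δ : Cplx n) : Prop :=
  ∀ F : Finset (Fin n), F.card = k → F ∈ Δ.faces

/-- missing face: not a face, but all its proper subsets are -/
def Missing {n : ℕ} (Δ : Cplx n) (F : Finset (Fin n)) : Prop :=
  F ∉ Δ.faces ∧ ∀ G, G ⊂ F → G ∈ Δ.faces

open Classical in
/-- the number of missing `i`-faces (they have `i + 1` vertices) -/
def mcount {n : ℕ} (Δ : Cplx n) (i : ℕ) : ℕ :=
  (Finset.univ.filter (fun F : Finset (Fin n) => F.card = i + 1 ∧ Missing Δ F)).card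

/-- the polynomial ring -/
abbrev R (n : ℕ) (K : Type) [Field K] := MvPolynomial (Fin n) K

/-- forms of degree `d` -/
abbrev hs (n : ℕ) (K : Type) [Field K] (d : ℕ) : Submodule K (R n K) :=
  homogeneousSubmodule (Fin n) K d

/-- the Stanley-Reisner ideal -/
def SR {n : ℕ} (K : Type) [Field K] (Δ : Cplx n) : Ideal (R n K) :=
  Ideal.span {p | ∃ F : Finset (Fin n), F ∉ Δ.faces ∧ p = ∏ v ∈ F, X v}

/-- a homogeneous ideal -/
def Hom {n : ℕ} {K : Type} [Field K] (I : Ideal (R n K)) : Prop :=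
  ∀ f ∈ I, ∀ d, homogeneousComponent d f ∈ I

/-- linear forms `θ` (a regular sequence on `K[x]/I`), a linear form `ω` and a functional `L` that make
`A = K[x]/(I, θ)` a Poincare duality algebra of socle degree `2k+1`, with `ω : A_k → A_{k+1}` injective -/
structure Sys (n k : ℕ) (K : Type) [Field K] (I : Ideal (R n K)) where
  θ : Fin (2 * k + 1) → R n K
  ω : R n K
  L : R n K →ₗ[K] K
  θ_lin : ∀ i, θ i ∈ hs n K 1
  ω_lin : ω ∈ hs n K 1
  proper : (1 : R n K) ∉ I ⊔ Ideal.span (Set.range θ)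
  regular : ∀ i f, θ i * f ∈ I ⊔ Ideal.span (θ '' {j | j < i}) → f ∈ I ⊔ Ideal.span (θ '' {j | j < i})
  L_zero : ∀ f ∈ I ⊔ Ideal.span (Set.range θ), L f = 0
  duality : ∀ d ≤ 2 * k + 1, ∀ f ∈ hs n K d,
    (∀ g ∈ hs n K (2 * k + 1 - d), L (f * g) = 0) → f ∈ I ⊔ Ideal.span (Set.range θ)
  lefschetz : ∀ a ∈ hs n K k, ω * a ∈ I ⊔ Ideal.span (Set.range θ) →
    a ∈ I ⊔ Ideal.span (Set.range θ)

variable {n k : ℕ} {K : Type} [Field K] {I : Ideal (R n K)}

/-- `J = (I, θ)` -/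
def Sys.J (s : Sys n k K I) : Ideal (R n K) := I ⊔ Ideal.span (Set.range s.θ)

/-- forms of degree `d` in `J` -/
def Sys.Jd (s : Sys n k K I) (d : ℕ) : Submodule K (R n K) :=
  s.J.restrictScalars K ⊓ hs n K d

/-- forms of degree `d` in `I` -/
def Id (I : Ideal (R n K)) (d : ℕ) : Submodule K (R n K) := I.restrictScalars K ⊓ hs n K d

/-- `R_1 I_{d}` -/
def RI (I : Ideal (R n K)) (d : ℕ) : Submodule K (R n K) :=
  Submodule.span K {p | ∃ x ∈ hs n K 1, ∃ f ∈ Id I d, p = x * f}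

/-- `∑ θ_i R_d` -/
def Sys.Th (s : Sys n k K I) (d : ℕ) : Submodule K (R n K) :=
  Submodule.span K {p | ∃ i, ∃ f ∈ hs n K d, p = s.θ i * f}

/-- `P = R_1 I_{k+1} + θ R_{k+1}` (degree `k+2`) -/
def Sys.P (s : Sys n k K I) : Submodule K (R n K) := RI I (k + 1) ⊔ s.Th (k + 1)

/-- `U = {h ∈ R_{k+1} | ω h ∈ J}` -/
def Sys.U (s : Sys n k K I) : Submodule K (R n K) :=
  (s.J.restrictScalars K).comap (LinearMap.mulLeft K s.ω) ⊓ hs n K (k + 1)

/-- `KP = {h ∈ R_{k+1} | ω h ∈ P}` -/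
def Sys.KP (s : Sys n k K I) : Submodule K (R n K) :=
  s.P.comap (LinearMap.mulLeft K s.ω) ⊓ hs n K (k + 1)

/-- `V = ω R_{k-1} + θ R_{k-1}` (degree `k`) -/
def Sys.V (s : Sys n k K I) : Submodule K (R n K) :=
  (hs n K (k - 1)).map (LinearMap.mulLeft K s.ω) ⊔ s.Th (k - 1)

/-! ### the pieces -/

/-- [SRH] the Stanley-Reisner ideal is homogeneous (monomial ideal) -/
def StSRH : Prop := ∀ {n : ℕ} (K : Type) [Field K] (Δ : Cplx n), Hom (SR K Δ)

/-- [NB] a `k`-neighborly complex: no forms of degree `k` in the ideal -/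
def StNB : Prop := ∀ {n : ℕ} (K : Type) [Field K] (Δ : Cplx n) (k : ℕ), k ≤ n → Neighborly k Δ →
  Id (SR K Δ) k = ⊥

/-- [M1] monomial count -/
def StM1 : Prop := ∀ {n : ℕ} (K : Type) [Field K] (Δ : Cplx n) (d : ℕ),
  finrank K (Id (SR K Δ) (d + 1)) = finrank K (RI (SR K Δ) d) + mcount Δ d

/-- [DEC] decomposition of forms in `J` -/
def StDEC : Prop := ∀ {n k : ℕ} {K : Type} [Field K] {I : Ideal (R n K)} (s : Sys n k K I), Hom I →
  ∀ d, s.Jd (d + 1) = Id I (d + 1) ⊔ s.Th d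

/-- [REG] regular sequence: `I ∩ (θ) = θ I` in degree `d + 1` -/
def StREG : Prop := ∀ {n k : ℕ} {K : Type} [Field K] {I : Ideal (R n K)} (s : Sys n k K I), Hom I →
  ∀ d, Id I (d + 1) ⊓ s.Th d ≤ RI I d

/-- [LIN] linear independence of `θ, ω` -/
def StLIN : Prop := ∀ {n k : ℕ} {K : Type} [Field K] {I : Ideal (R n K)} (s : Sys n k K I), Hom I →
  2 * k + 3 ≤ n → 1 ≤ k → Id I k = ⊥ →
  LinearIndependent K (Fin.cons s.ω s.θ : Fin (2 * k + 1 + 1) → R n K)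

/-- [DIM] Hilbert function of a polynomial ring modulo independent linear forms -/
def StDIM : Prop := ∀ {n r : ℕ} {K : Type} [Field K] (l : Fin r → R n K), (∀ i, l i ∈ hs n K 1) →
  LinearIndependent K l → r < n → ∀ d : ℕ, finrank K (hs n K (d + 1)) =
    finrank K (Submodule.span K {p | ∃ i, ∃ f ∈ hs n K d, p = l i * f}) + (n - r + d).choose (d + 1)

/-- [PHI] division by `ω` -/
def StPHI : Prop := ∀ {n k : ℕ} {K : Type} [Field K] {I : Ideal (R n K)} (s : Sys n k K I),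
  ∀ f ∈ hs n K (k + 1), ∃ a ∈ hs n K k, f - s.ω * a ∈ s.J

/-- [KEY] if `KP` is not in `J` then some Koszul element is not in `J` -/
def StKEY : Prop := ∀ {n k : ℕ} {K : Type} [Field K] {I : Ideal (R n K)} (s : Sys n k K I),
  (∀ f ∈ hs n K (k + 1), ∃ a ∈ hs n K k, f - s.ω * a ∈ s.J) →
  ∀ h ∈ s.KP, h ∉ s.J →
  ∃ x ∈ hs n K 1, ∃ y ∈ hs n K 1, ∃ g ∈ hs n K k, ∃ p ∈ hs n K k, ∃ q ∈ hs n K k,
    y * g - s.ω * p ∈ s.J ∧ x * g - s.ω * q ∈ s.J ∧ x * p - y * q ∉ s.J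

/-- [RANK] -/
def StRANK : Prop := ∀ {n k : ℕ} {K : Type} [Field K] {I : Ideal (R n K)} (s : Sys n k K I),
  (∀ f ∈ hs n K (k + 1), ∃ a ∈ hs n K k, f - s.ω * a ∈ s.J) → s.Jd (k + 1) = Id I (k + 1) ⊔ s.Th k →
  s.Jd (k + 1) ≤ s.KP ∧ finrank K s.KP ≠ finrank K (s.Jd (k + 1)) + 1

/-- [D3] -/
def StD3 : Prop := ∀ {n k : ℕ} {K : Type} [Field K] {I : Ideal (R n K)} (s : Sys n k K I),
  (∀ f ∈ hs n K (k + 1), ∃ a ∈ hs n K k, f - s.ω * a ∈ s.J) → s.Jd (k + 1) = Id I (k + 1) ⊔ s.Th k →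
  finrank K (s.Jd (k + 2)) + finrank K s.KP = finrank K s.U + finrank K s.P

/-- [D4] -/
def StD4 : Prop := ∀ {n k : ℕ} {K : Type} [Field K] {I : Ideal (R n K)} (s : Sys n k K I), 1 ≤ k →
  s.Jd k = s.Th (k - 1) →
  finrank K s.U + finrank K s.V = finrank K (hs n K k) + finrank K (s.Jd (k + 1))

end

end Pool.Agent.K4H40.NS
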